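import Pool.Agent.Helper70.EH.Goals3

/-!
# Project EH (MP_20ee5e_ag), packet WR: consecutive sums of products
-/

set_option autoImplicit false

namespace Pool.Agent.Helper4.EH.WR

open Finset Pool.Agent.Helper70.EH

variable {r : ℕ}

/-- The exponents. -/
def P (r M : ℕ) : Finset (Fin r → ℕ) :=
  (Finset.piAntidiag Finset.univ M).filter (fun m : Fin r → ℕ => ∀ i, 1 ≤ m i)

theorem mem_P {M : ℕ} {m : Fin r → ℕ} : m ∈ P r M ↔ ∑ i, m i = M ∧ ∀ i, 1 ≤ m i := by
  unfold P
  rw [mem_filter, mem_piAntidiag]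
  constructor
  · rintro ⟨⟨h1, _⟩, h2⟩
    exact ⟨h1, h2⟩
  · rintro ⟨h1, h2⟩
    exact ⟨⟨h1, fun i _ => mem_univ i⟩, h2⟩

/-- The term. -/
def x (k : Fin r → ℕ) (m : Fin r → ℕ) : ℝ := ∏ i, (k i : ℝ) ^ m i

theorem wt_eq (k : Fin r → ℕ) (M : ℕ) : wt k M = ∑ m ∈ P r M, x k m := rfl

/-- The weighted sum. -/
def D (k : Fin r → ℕ) (M : ℕ) (i : Fin r) : ℝ := ∑ m ∈ P r M, (m i : ℝ) * x k m

theorem sum_D (k : Fin r → ℕ) (M : ℕ) : ∑ i, D k M i = M * wt k M := by
  unfold D
  rw [Finset.sum_comm, wt_eq, Finset.mul_sum]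
  refine Finset.sum_congr rfl fun m hm => ?_
  rw [← Finset.sum_mul, ← Nat.cast_sum, (mem_P.mp hm).1]

theorem x_add (k : Fin r → ℕ) (m : Fin r → ℕ) (i : Fin r) :
    x k (m + Pi.single i 1) = (k i : ℝ) * x k m := by
  unfold x
  rw [← Finset.mul_prod_erase univ _ (mem_univ i), ← Finset.mul_prod_erase univ
    (fun i => (k i : ℝ) ^ m i) (mem_univ i)]
  have h1 : ∏ j ∈ univ.erase i, (k j : ℝ) ^ (m + Pi.single i 1 : Fin r → ℕ) j =
      ∏ j ∈ univ.erase i, (k j : ℝ) ^ m j := by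
    refine Finset.prod_congr rfl fun j hj => ?_
    rw [Pi.add_apply, Pi.single_eq_of_ne (ne_of_mem_erase hj), add_zero]
  rw [h1, Pi.add_apply, Pi.single_eq_same, pow_succ]
  ring

theorem step (k : Fin r → ℕ) (M : ℕ) (i : Fin r) :
    ∑ m ∈ P r (M + 1), ((m i : ℝ) - 1) * x k m = (k i : ℝ) * D k M i := by
  have h1 : ∑ m ∈ P r (M + 1), ((m i : ℝ) - 1) * x k m =
      ∑ m ∈ (P r (M + 1)).filter (fun m => 2 ≤ m i), ((m i : ℝ) - 1) * x k m := by
    symm
    refine Finset.sum_filter_of_ne fun m hm hne => ?_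
    by_contra hlt
    apply hne
    have h2 := (mem_P.mp hm).2 i
    have h3 : m i = 1 := by omega
    rw [h3]
    simp
  rw [h1]
  unfold D
  rw [Finset.mul_sum]
  symm
  refine Finset.sum_bij (fun m _ => m + Pi.single i 1) ?_ ?_ ?_ ?_
  · intro m hm
    obtain ⟨h2, h3⟩ := mem_P.mp hm
    rw [mem_filter, mem_P]
    refine ⟨⟨?_, ?_⟩, ?_⟩
    · simp only [Pi.add_apply]
      rw [Finset.sum_add_distrib, h2]
      simp
    · intro j
      have := h3 j
      simp only [Pi.add_apply]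
      omega
    · have := h3 i
      simp only [Pi.add_apply, Pi.single_eq_same]
      omega
  · intro m _ m' _ h
    exact add_right_cancel h
  · intro m hm
    rw [mem_filter, mem_P] at hm
    obtain ⟨⟨h2, h3⟩, h4⟩ := hm
    have hs : m - Pi.single i 1 + Pi.single i 1 = m := by
      funext j
      rw [Pi.add_apply, Pi.sub_apply]
      by_cases hj : j = i
      · subst hj
        rw [Pi.single_eq_same]
        omega
      · rw [Pi.single_eq_of_ne hj]
        omega
    refine ⟨m - Pi.single i 1, ?_, hs⟩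
    rw [mem_P]
    constructor
    · have h5 : ∑ j, (m - Pi.single i 1 + Pi.single i 1 : Fin r → ℕ) j = M + 1 := by
        rw [hs]
        exact h2
      simp only [Pi.add_apply] at h5
      rw [Finset.sum_add_distrib] at h5
      have h6 : ∑ j, (Pi.single i 1 : Fin r → ℕ) j = 1 := by simp
      rw [h6] at h5
      omega
    · intro j
      rw [Pi.sub_apply]
      by_cases hj : j = i
      · subst hj
        rw [Pi.single_eq_same]
        omega
      · rw [Pi.single_eq_of_ne hj]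
        have := h3 j
        omega
  · intro m _
    rw [x_add]
    simp only [Pi.add_apply, Pi.single_eq_same]
    push_cast
    ring

theorem sum_step (k : Fin r → ℕ) (M : ℕ) :
    ((M : ℝ) + 1 - r) * wt k (M + 1) = ∑ i, (k i : ℝ) * D k M i := by
  simp only [← step]
  rw [Finset.sum_comm, wt_eq, Finset.mul_sum]
  refine Finset.sum_congr rfl fun m hm => ?_
  rw [← Finset.sum_mul]
  congr 1
  rw [Finset.sum_sub_distrib, ← Nat.cast_sum, (mem_P.mp hm).1]
  simp

theorem swap_mem {M : ℕ} {m : Fin r → ℕ} (hm : m ∈ P r M) (i j : Fin r) :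
    m ∘ Equiv.swap i j ∈ P r M := by
  obtain ⟨h1, h2⟩ := mem_P.mp hm
  rw [mem_P]
  refine ⟨?_, fun l => h2 _⟩
  rw [← h1]
  exact Equiv.sum_comp (Equiv.swap i j) m

theorem pow_lem (a b : ℝ) (ha : 0 < b) (hab : b ≤ a) (p q : ℕ) :
    0 ≤ ((p : ℝ) - q) * (a ^ p * b ^ q - a ^ q * b ^ p) := by
  have key : ∀ p q : ℕ, q ≤ p → a ^ q * b ^ p ≤ a ^ p * b ^ q := by
    intro p q hqp
    obtain ⟨d, rfl⟩ := Nat.exists_eq_add_of_le hqp
    have h1 : b ^ d ≤ a ^ d := pow_le_pow_left₀ ha.le hab d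
    have h2 : 0 ≤ a ^ q * b ^ q := by
      have : 0 < a := lt_of_lt_of_le ha hab
      positivity
    calc a ^ q * b ^ (q + d) = a ^ q * b ^ q * b ^ d := by ring
      _ ≤ a ^ q * b ^ q * a ^ d := mul_le_mul_of_nonneg_left h1 h2
      _ = a ^ (q + d) * b ^ q := by ring
  rcases le_total q p with h | h
  · apply mul_nonneg
    · exact sub_nonneg.mpr (by exact_mod_cast h)
    · exact sub_nonneg.mpr (key p q h)
  · apply mul_nonneg_of_nonpos_of_nonpos
    · exact sub_nonpos.mpr (by exact_mod_cast h)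
    · exact sub_nonpos.mpr (key q p h)

theorem D_mono (k : Fin r → ℕ) (hk : ∀ i, 1 ≤ k i) (M : ℕ) (i j : Fin r) (hij : k j ≤ k i) :
    D k M j ≤ D k M i := by
  by_cases hne : i = j
  · rw [hne]
  have h1 : ∑ m ∈ P r M, ((m i : ℝ) - m j) * x k m =
      ∑ m ∈ P r M, ((m j : ℝ) - m i) * x k (m ∘ Equiv.swap i j) := by
    refine Finset.sum_bij (fun m _ => m ∘ Equiv.swap i j) ?_ ?_ ?_ ?_
    · intro m hm
      exact swap_mem hm i j
    · intro m _ m' _ h
      funext l
      have := congrFun h (Equiv.swap i j l)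
      simpa using this
    · intro m hm
      refine ⟨m ∘ Equiv.swap i j, swap_mem hm i j, ?_⟩
      funext l
      simp
    · intro m _
      have e : (m ∘ Equiv.swap i j) ∘ Equiv.swap i j = m := by
        funext l
        simp
      rw [e]
      simp
  have h2 : ∀ m : Fin r → ℕ, 0 ≤ ((m i : ℝ) - m j) * (x k m - x k (m ∘ Equiv.swap i j)) := by
    intro m
    have hj : j ∈ univ.erase i := mem_erase.mpr ⟨fun h => hne h.symm, mem_univ j⟩
    have e1 : x k m = (k i : ℝ) ^ m i * ((k j : ℝ) ^ m j *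
        ∏ l ∈ (univ.erase i).erase j, (k l : ℝ) ^ m l) := by
      unfold x
      rw [← Finset.mul_prod_erase univ _ (mem_univ i), ← Finset.mul_prod_erase _ _ hj]
    have e2 : x k (m ∘ Equiv.swap i j) = (k i : ℝ) ^ m j * ((k j : ℝ) ^ m i *
        ∏ l ∈ (univ.erase i).erase j, (k l : ℝ) ^ m l) := by
      unfold x
      rw [← Finset.mul_prod_erase univ _ (mem_univ i), ← Finset.mul_prod_erase _ _ hj]
      have e3 : ∏ l ∈ (univ.erase i).erase j, (k l : ℝ) ^ (m ∘ Equiv.swap i j) l =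
          ∏ l ∈ (univ.erase i).erase j, (k l : ℝ) ^ m l := by
        refine Finset.prod_congr rfl fun l hl => ?_
        have hlj : l ≠ j := ne_of_mem_erase hl
        have hli : l ≠ i := ne_of_mem_erase (mem_of_mem_erase hl)
        rw [Function.comp_apply, Equiv.swap_apply_of_ne_of_ne hli hlj]
      rw [e3, Function.comp_apply, Function.comp_apply, Equiv.swap_apply_left,
        Equiv.swap_apply_right]
    rw [e1, e2]
    have h3 := pow_lem (k i : ℝ) (k j : ℝ) (by exact_mod_cast hk j) (by exact_mod_cast hij)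
      (m i) (m j)
    have h4 : 0 ≤ ∏ l ∈ (univ.erase i).erase j, (k l : ℝ) ^ m l := by positivity
    have e4 : ((m i : ℝ) - m j) * ((k i : ℝ) ^ m i * ((k j : ℝ) ^ m j *
        ∏ l ∈ (univ.erase i).erase j, (k l : ℝ) ^ m l) - (k i : ℝ) ^ m j * ((k j : ℝ) ^ m i *
        ∏ l ∈ (univ.erase i).erase j, (k l : ℝ) ^ m l)) =
        ((m i : ℝ) - m j) * ((k i : ℝ) ^ m i * (k j : ℝ) ^ m j -
          (k i : ℝ) ^ m j * (k j : ℝ) ^ m i) *
        ∏ l ∈ (univ.erase i).erase j, (k l : ℝ) ^ m l := by ring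
    rw [e4]
    exact mul_nonneg h3 h4
  have h5 : 0 ≤ ∑ m ∈ P r M, ((m i : ℝ) - m j) * (x k m - x k (m ∘ Equiv.swap i j)) :=
    Finset.sum_nonneg fun m _ => h2 m
  have h6 : ∑ m ∈ P r M, ((m i : ℝ) - m j) * (x k m - x k (m ∘ Equiv.swap i j)) =
      ∑ m ∈ P r M, ((m i : ℝ) - m j) * x k m +
        ∑ m ∈ P r M, ((m j : ℝ) - m i) * x k (m ∘ Equiv.swap i j) := by
    rw [← Finset.sum_add_distrib]
    refine Finset.sum_congr rfl fun m _ => ?_
    ring
  rw [h6, ← h1] at h5
  have h7 : ∑ m ∈ P r M, ((m i : ℝ) - m j) * x k m = D k M i - D k M j := by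
    unfold D
    rw [← Finset.sum_sub_distrib]
    refine Finset.sum_congr rfl fun m _ => ?_
    ring
  rw [h7] at h5
  linarith

theorem t : G_WR := by
  intro r M k _ hk _
  have hmv : Monovary (fun i => (k i : ℝ)) (D k M) := by
    intro i j hij
    by_contra hcon
    push Not at hcon
    have h1 : k j ≤ k i := by
      have : (k j : ℝ) ≤ (k i : ℝ) := le_of_lt hcon
      exact_mod_cast this
    have := D_mono k hk M i j h1
    linarith
  have h := hmv.sum_mul_sum_le_card_mul_sum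
  rw [sum_D, ← sum_step, Fintype.card_fin] at h
  calc wt k M * ((M : ℝ) * ∑ j, (k j : ℝ)) = (∑ j, (k j : ℝ)) * (M * wt k M) := by ring
    _ ≤ r * (((M : ℝ) + 1 - r) * wt k (M + 1)) := h
    _ = wt k (M + 1) * (((M : ℝ) + 1 - r) * r) := by ring

end Pool.Agent.Helper4.EH.WR
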